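import Pool.Agent.Helper98.DE.St

/-!
# Project DE, module PCI: counting pairs
-/

set_option autoImplicit false

namespace Pool.Agent.Helper55.DE

open Pool.Agent.Helper98.DE
open Pool.Agent.Helper51.AJ (IsMinor Planar Apex ExMinor Con Tch)
open Pool.Agent.Helper12.NK (rst Kc cnt)
open Pool.Agent.Helper12.MA (dl Srv)

open Classical in
private theorem pc_eq {V : Type} (H : SimpleGraph V) (U : Finset V) :
    pc H U = ∑ a ∈ U, ∑ b ∈ U, if H.Adj a b then 1 else 0 := by
  unfold pc
  refine Finset.sum_congr rfl fun a _ => ?_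
  rw [Finset.card_filter]

open Classical in
private theorem one_ {V : Type} (H : SimpleGraph V) (U : Finset V) (v : V) (hv : v ∉ U) :
    pc H (insert v U) = pc H U + 2 * (U.filter fun b => H.Adj v b).card := by
  rw [pc_eq, pc_eq, Finset.sum_insert hv, Finset.sum_insert hv, if_neg (H.loopless.irrefl v),
    Finset.card_filter]
  have h : ∑ a ∈ U, ∑ b ∈ insert v U, (if H.Adj a b then 1 else 0) =
      (∑ a ∈ U, if H.Adj v a then 1 else 0) + ∑ a ∈ U, ∑ b ∈ U, if H.Adj a b then 1 else 0 := by
    rw [← Finset.sum_add_distrib]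
    refine Finset.sum_congr rfl fun a _ => ?_
    rw [Finset.sum_insert hv]
    simp only [H.adj_comm a v]
  rw [h]
  ring

open Classical in
private theorem mono_ {V : Type} (H H' : SimpleGraph V) (U : Finset V)
    (h : ∀ a ∈ U, ∀ b ∈ U, H.Adj a b → H'.Adj a b) : pc H U ≤ pc H' U := by
  unfold pc
  refine Finset.sum_le_sum fun a ha => Finset.card_le_card ?_
  intro b hb
  rw [Finset.mem_filter] at hb ⊢
  exact ⟨hb.1, h a ha b hb.1 hb.2⟩

open Classical in
private theorem ind_le {V : Type} (U : Finset V) (x y : V) :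
    ∑ a ∈ U, ∑ b ∈ U, (if (a = x ∧ b = y) then 1 else 0) ≤ 1 := by
  have h : ∀ a ∈ U, ∑ b ∈ U, (if (a = x ∧ b = y) then 1 else 0) ≤ if a = x then 1 else 0 := by
    intro a _
    by_cases ha : a = x
    · rw [if_pos ha]
      have : ∀ b ∈ U, (if (a = x ∧ b = y) then 1 else 0) = if b = y then 1 else 0 := by
        intro b _
        simp [ha]
      rw [Finset.sum_congr rfl this, Finset.sum_ite_eq' U y]
      split_ifs <;> simp
    · rw [if_neg ha]
      apply le_of_eq
      refine Finset.sum_eq_zero fun b _ => ?_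
      rw [if_neg (fun h => ha h.1)]
  refine (Finset.sum_le_sum h).trans ?_
  rw [Finset.sum_ite_eq' U x]
  split_ifs <;> simp

open Classical in
private theorem three_ {V : Type} (H : SimpleGraph V) (U : Finset V) (x y : V) :
    pc H U ≤ pc (dl H x y) U + 2 := by
  rw [pc_eq, pc_eq]
  have h1 := ind_le U x y
  have h2 := ind_le U y x
  have h3 : ∑ a ∈ U, ∑ b ∈ U, (if H.Adj a b then 1 else 0) ≤
      ∑ a ∈ U, ∑ b ∈ U, (((if (dl H x y).Adj a b then 1 else 0) +
        (if (a = x ∧ b = y) then 1 else 0)) + (if (a = y ∧ b = x) then 1 else 0)) := by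
    refine Finset.sum_le_sum fun a _ => Finset.sum_le_sum fun b _ => ?_
    by_cases c : H.Adj a b
    · rw [if_pos c]
      by_cases c1 : a = x ∧ b = y
      · rw [if_pos c1]
        omega
      · by_cases c2 : a = y ∧ b = x
        · rw [if_pos c2]
          omega
        · rw [if_pos (show (dl H x y).Adj a b from ⟨c, c1, c2⟩)]
          omega
    · rw [if_neg c]
      omega
  simp only [Finset.sum_add_distrib] at h3
  omega

open Classical in
private theorem four_ {V : Type} (H : SimpleGraph V) (U : Finset V) (x : V) (hx : x ∈ U) (y : V)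
    (hy : y ∈ U) (h : H.Adj x y) : pc (dl H x y) U < pc H U := by
  unfold pc
  refine Finset.sum_lt_sum (fun a _ => Finset.card_le_card ?_) ⟨x, hx, Finset.card_lt_card ?_⟩
  · intro b hb
    rw [Finset.mem_filter] at hb ⊢
    exact ⟨hb.1, hb.2.1⟩
  · refine ⟨fun b hb => ?_, fun hs => ?_⟩
    · rw [Finset.mem_filter] at hb ⊢
      exact ⟨hb.1, hb.2.1⟩
    · have h1 : y ∈ U.filter (fun b => H.Adj x b) := Finset.mem_filter.2 ⟨hy, h⟩
      have h2 := (Finset.mem_filter.1 (hs h1)).2
      exact h2.2.1 ⟨rfl, rfl⟩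

open Classical in
private theorem five_ {V : Type} (H : SimpleGraph V) (U : Finset V) (u : V) (hu : u ∈ U) (v : V)
    (hv : v ∈ U) (h : H.Adj u v) : pc H U =
    pc (cnt H u v) (U.erase v) + 2 + 2 * (U.filter fun w => H.Adj u w ∧ H.Adj v w).card := by
  have huv : u ≠ v := H.ne_of_adj h
  have hu' : u ∈ U.erase v := Finset.mem_erase.2 ⟨huv, hu⟩
  set W := (U.erase v).erase u with hW
  have hUW : U.erase v = insert u W := (Finset.insert_erase hu').symm
  have huW : u ∉ W := Finset.notMem_erase u _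
  have hvW : v ∉ W := fun hh => (Finset.mem_erase.1 (Finset.mem_erase.1 hh).2).1 rfl
  have hUv : U = insert v (U.erase v) := (Finset.insert_erase hv).symm
  have e1 : pc H U = pc H (U.erase v) + 2 * ((U.erase v).filter fun b => H.Adj v b).card := by
    conv_lhs => rw [hUv]
    exact one_ H (U.erase v) v (Finset.notMem_erase v U)
  have e2 : pc H (U.erase v) = pc H W + 2 * (W.filter fun b => H.Adj u b).card := by
    rw [hUW]
    exact one_ H W u huW
  have e3 : pc (cnt H u v) (U.erase v) =
      pc (cnt H u v) W + 2 * (W.filter fun b => (cnt H u v).Adj u b).card := by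
    rw [hUW]
    exact one_ (cnt H u v) W u huW
  have hne : ∀ a ∈ W, a ≠ u ∧ a ≠ v := fun a ha =>
    ⟨fun e => huW (e ▸ ha), fun e => hvW (e ▸ ha)⟩
  have e4 : pc (cnt H u v) W = pc H W := by
    apply le_antisymm
    · refine mono_ _ _ W fun a ha b hb hab => ?_
      rcases hab.2.2.2 with k | k | k
      · exact k
      · exact absurd k.1 (hne a ha).1
      · exact absurd k.1 (hne b hb).1
    · exact mono_ _ _ W fun a ha b hb hab =>
        ⟨H.ne_of_adj hab, (hne a ha).2, (hne b hb).2, Or.inl hab⟩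
  have e5 : ((U.erase v).filter fun b => H.Adj v b).card = (W.filter fun b => H.Adj v b).card + 1 := by
    rw [hUW, Finset.filter_insert, if_pos h.symm, Finset.card_insert_of_notMem]
    intro hh
    exact huW (Finset.mem_filter.1 hh).1
  have e6 : (W.filter fun b => (cnt H u v).Adj u b) =
      (W.filter fun b => H.Adj u b) ∪ (W.filter fun b => H.Adj v b) := by
    ext b
    rw [Finset.mem_union, Finset.mem_filter, Finset.mem_filter, Finset.mem_filter]
    constructor
    · rintro ⟨hb, hab⟩
      rcases hab.2.2.2 with k | k | k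
      · exact Or.inl ⟨hb, k⟩
      · exact Or.inr ⟨hb, k.2⟩
      · exact absurd k.1 (hne b hb).1
    · rintro (⟨hb, k⟩ | ⟨hb, k⟩)
      · exact ⟨hb, (hne b hb).1.symm, huv, (hne b hb).2, Or.inl k⟩
      · exact ⟨hb, (hne b hb).1.symm, huv, (hne b hb).2, Or.inr (Or.inl ⟨rfl, k⟩)⟩
  have e7 : (U.filter fun w => H.Adj u w ∧ H.Adj v w) =
      (W.filter fun b => H.Adj u b) ∩ (W.filter fun b => H.Adj v b) := by
    ext b
    rw [Finset.mem_inter, Finset.mem_filter, Finset.mem_filter, Finset.mem_filter]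
    constructor
    · rintro ⟨hb, k1, k2⟩
      have hbW : b ∈ W := Finset.mem_erase.2 ⟨(H.ne_of_adj k1).symm,
        Finset.mem_erase.2 ⟨(H.ne_of_adj k2).symm, hb⟩⟩
      exact ⟨⟨hbW, k1⟩, ⟨hbW, k2⟩⟩
    · rintro ⟨⟨hb, k1⟩, ⟨_, k2⟩⟩
      exact ⟨Finset.mem_of_mem_erase (Finset.mem_of_mem_erase hb), k1, k2⟩
  have e8 := Finset.card_union_add_card_inter (W.filter fun b => H.Adj u b)
    (W.filter fun b => H.Adj v b)
  rw [e1, e2, e3, e4, e5, e6, e7]
  omega

open Classical in
private theorem deg_ {V : Type} [Fintype V] (H : SimpleGraph V) (v : V) :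
    dg H v = (Finset.univ.filter fun b => H.Adj v b).card := by
  unfold dg
  rw [← Set.ncard_coe_finset]
  congr 1
  ext b
  simp

open Classical in
theorem hPCI : StPCI := by
  intro V _ H U
  refine ⟨fun v hv => one_ H U v hv, fun H' h => mono_ H H' U h, fun x y => three_ H U x y,
    fun x hx y hy h => four_ H U x hx y hy h, fun u hu v hv h => five_ H U u hu v hv h, ?_, ?_⟩
  · unfold pc
    exact Finset.sum_congr rfl fun a _ => (deg_ H a).symm
  · have h1 := H.sum_degrees_eq_twice_card_edges
    have h2 : H.edgeSet.ncard = H.edgeFinset.card := by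
      rw [← Set.ncard_coe_finset, SimpleGraph.coe_edgeFinset]
    rw [h2, ← h1]
    unfold pc
    refine Finset.sum_congr rfl fun a _ => ?_
    rw [← SimpleGraph.card_neighborFinset_eq_degree]
    congr 1
    ext b
    simp

end Pool.Agent.Helper55.DE
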